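import Pool.Agent.H809Z.Berg.Main

namespace Pool.Agent.Results.MP_46c13c_an.ABallStrict

open Pool.Agent.H809Z.BergDefs

/-- Let `Ω ⊆ ℂⁿ` be open and contain a Euclidean ball `B` whose boundary meets the boundary of `Ω`
exactly in `p`. If the restriction `A²(Ω) → A²(B)` is not compact, then for every `C²` local
defining function `r` of `Ω` at `p` the Levi form of `r` at `p` is positive definite on the complex
tangent space: `p` is a strictly pseudoconvex boundary point of `Ω`. -/
theorem result :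
    ∀ (n : ℕ) (Ω : Set (Fin n → ℂ)) (c p : Fin n → ℂ) (R : ℝ), 0 < R → IsOpen Ω →
      euclBall c R ⊆ Ω → frontier Ω ∩ frontier (euclBall c R) = {p} →
      ¬ RestrictionIsCompact Ω (euclBall c R) →
      ∀ r : (Fin n → ℂ) → ℝ, IsLocalDefiningFunction Ω p r →
        ∀ v : Fin n → ℂ, v ≠ 0 → fderiv ℝ r p v = 0 → fderiv ℝ r p (Complex.I • v) = 0 →
          0 < leviForm r p v :=
  fun _ _ _ _ _ hR hΩ hsub hfr hnc _ hr _ hv h1 h2 =>
    Pool.Agent.H809Z.Berg.main hR hΩ hsub hfr hnc hr hv h1 h2

end Pool.Agent.Results.MP_46c13c_an.ABallStrict
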